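import Pool.Agent.Helper69.GC.Defs

set_option autoImplicit false

namespace Pool.Agent.Helper69.GC

theorem card_le_of_sub {α : Type} (S : Finset ℕ) (f : ℕ → α) [DecidableEq α] (n : ℕ) (g : ℕ → ℕ)
    (h : S ⊆ (Finset.range n).image g) : (S.image f).card ≤ n := by
  calc (S.image f).card ≤ S.card := Finset.card_image_le
    _ ≤ ((Finset.range n).image g).card := Finset.card_le_card h
    _ ≤ (Finset.range n).card := Finset.card_image_le
    _ = n := Finset.card_range n

theorem st_CARD : ST_CARD := by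
  intro k hk hk3
  unfold crd
  have c1 : (((Finset.range (k + 1)).filter fun s => 1 ≤ s ∧ 3 * s ≤ k).image
      (fun s => ((0, 0, s) : Fin 3 × Fin 3 × ℕ))).card ≤ k / 3 := by
    refine card_le_of_sub _ _ (k / 3) (fun x => x + 1) ?_
    intro s hs
    obtain ⟨-, h1, h2⟩ := Finset.mem_filter.mp hs
    exact Finset.mem_image.mpr ⟨s - 1, Finset.mem_range.mpr (by omega), by omega⟩
  have c2 : (((Finset.range (k + 1)).filter fun s => 3 * s + 1 ≤ k).image
      (fun s => ((0, 1, s) : Fin 3 × Fin 3 × ℕ))).card ≤ (k + 2) / 3 := by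
    refine card_le_of_sub _ _ ((k + 2) / 3) (fun x => x) ?_
    intro s hs
    obtain ⟨-, h2⟩ := Finset.mem_filter.mp hs
    exact Finset.mem_image.mpr ⟨s, Finset.mem_range.mpr (by omega), rfl⟩
  have c3 : (((Finset.range (k + 1)).filter fun s => 3 * s + 2 ≤ k).image
      (fun s => ((1, 0, s + 1) : Fin 3 × Fin 3 × ℕ))).card ≤ (k + 1) / 3 := by
    refine card_le_of_sub _ _ ((k + 1) / 3) (fun x => x) ?_
    intro s hs
    obtain ⟨-, h2⟩ := Finset.mem_filter.mp hs
    exact Finset.mem_image.mpr ⟨s, Finset.mem_range.mpr (by omega), rfl⟩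
  have c4 : (((Finset.range (k + 1)).filter fun s => s % 2 = 0 ∧ 3 * s + 1 < k).image
      (fun s => ((2, 0, s + 1) : Fin 3 × Fin 3 × ℕ))).card ≤ (k + 4) / 6 := by
    refine card_le_of_sub _ _ ((k + 4) / 6) (fun x => 2 * x) ?_
    intro s hs
    obtain ⟨-, h1, h2⟩ := Finset.mem_filter.mp hs
    exact Finset.mem_image.mpr ⟨s / 2, Finset.mem_range.mpr (by omega), by omega⟩
  have c5 : (((Finset.range (k + 1)).filter fun s => s % 2 = 1 ∧ 3 * s + 2 < k).image
      (fun s => ((0, 2, s) : Fin 3 × Fin 3 × ℕ))).card ≤ k / 6 := by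
    refine card_le_of_sub _ _ (k / 6) (fun x => 2 * x + 1) ?_
    intro s hs
    obtain ⟨-, h1, h2⟩ := Finset.mem_filter.mp hs
    exact Finset.mem_image.mpr ⟨s / 2, Finset.mem_range.mpr (by omega), by omega⟩
  refine le_trans (Finset.card_union_le _ _) ?_
  refine le_trans (Nat.add_le_add_right (Finset.card_union_le _ _) _) ?_
  refine le_trans (Nat.add_le_add_right (Nat.add_le_add_right (Finset.card_union_le _ _) _) _) ?_
  refine le_trans (Nat.add_le_add_right (Nat.add_le_add_right (Nat.add_le_add_right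
    (Finset.card_union_le _ _) _) _) _) ?_
  refine le_trans (Nat.add_le_add (Nat.add_le_add (Nat.add_le_add (Nat.add_le_add c1 c2) c3) c4)
    c5) ?_
  clear c1 c2 c3 c4 c5
  obtain ⟨r, hr⟩ : ∃ r, k = 6 * r + 1 ∨ k = 6 * r + 3 ∨ k = 6 * r + 5 := ⟨k / 6, by omega⟩
  rcases hr with rfl | rfl | rfl
  · have e1 : (6 * r + 1) / 3 = 2 * r := by omega
    have e2 : (6 * r + 1 + 2) / 3 = 2 * r + 1 := by omega
    have e3 : (6 * r + 1 + 1) / 3 = 2 * r := by omega
    have e4 : (6 * r + 1 + 4) / 6 = r := by omega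
    have e5 : (6 * r + 1) / 6 = r := by omega
    have e6 : 4 * (6 * r + 1) / 3 = 8 * r + 1 := by omega
    rw [e1, e2, e3, e4, e5, e6]; omega
  · have e1 : (6 * r + 3) / 3 = 2 * r + 1 := by omega
    have e2 : (6 * r + 3 + 2) / 3 = 2 * r + 1 := by omega
    have e3 : (6 * r + 3 + 1) / 3 = 2 * r + 1 := by omega
    have e4 : (6 * r + 3 + 4) / 6 = r + 1 := by omega
    have e5 : (6 * r + 3) / 6 = r := by omega
    have e6 : 4 * (6 * r + 3) / 3 = 8 * r + 4 := by omega
    rw [e1, e2, e3, e4, e5, e6]; omega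
  · have e1 : (6 * r + 5) / 3 = 2 * r + 1 := by omega
    have e2 : (6 * r + 5 + 2) / 3 = 2 * r + 2 := by omega
    have e3 : (6 * r + 5 + 1) / 3 = 2 * r + 2 := by omega
    have e4 : (6 * r + 5 + 4) / 6 = r + 1 := by omega
    have e5 : (6 * r + 5) / 6 = r := by omega
    have e6 : 4 * (6 * r + 5) / 3 = 8 * r + 6 := by omega
    rw [e1, e2, e3, e4, e5, e6]; omega

end Pool.Agent.Helper69.GC
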