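import Pool.Agent.Helper69.GC.Defs

set_option autoImplicit false

namespace Pool.Agent.Helper69.GC

open Polynomial

theorem gam_fil_add {F : Type} [Field F] (d : ℕ) (M N : Mat F) (hM : Fil d M) (hN : Fil d N) :
    Fil d (M + N) := by
  intro i j s hs
  rw [Matrix.add_apply, coeff_add, hM i j s hs, hN i j s hs, add_zero]

theorem gam_fil_mono {F : Type} [Field F] (d e : ℕ) (hde : d ≤ e) (M : Mat F) (hM : Fil e M) :
    Fil d M := by
  intro i j s hs
  exact hM i j s (by omega)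

theorem gam_fil_zero {F : Type} [Field F] (d : ℕ) : Fil d (0 : Mat F) := by
  intro i j s _
  simp

theorem gam_fil0_of {F : Type} [Field F] (h : Fil 0 (1 : Mat F)) (M : Mat F)
    (hM : Fil 1 (M - 1)) : Fil 0 M := by
  have h2 := gam_fil_add 0 (M - 1) 1 (gam_fil_mono 0 1 (by omega) _ hM) h
  rwa [sub_add_cancel] at h2

theorem st_GAM (h1 : ST_ALG) (h2 : ST_FIL) : ST_GAM := by
  intro F _ hF
  obtain ⟨ttmul, ttsub, tttw, ttone, -, -, -, hA, hB⟩ := h1 F hF
  obtain ⟨fmul, -, -, fone, ftw⟩ := h2 F 0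
  have hone : Mem (1 : Mat F) := by
    refine ⟨Matrix.det_one, ?_, ?_, ?_⟩
    · rw [sub_self]
      exact gam_fil_zero 1
    · rw [ttone, mul_one]
    · rw [ttone, mul_one]
  have hmul : ∀ M N : Mat F, Mem M → Mem N → Mem (M * N) := by
    intro M N ⟨dM, fM, a1, a2⟩ ⟨dN, fN, b1, b2⟩
    refine ⟨?_, ?_, ?_, ?_⟩
    · rw [Matrix.det_mul, dM, dN, one_mul]
    · have e : M * N - 1 = (M - 1) * N + (N - 1) := by
        rw [sub_mul, one_mul]; abel
      rw [e]
      exact gam_fil_add 1 _ _ (by simpa using fmul 1 0 (M - 1) N fM (gam_fil0_of fone N fN)) fN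
    · rw [ttmul, mul_assoc, ← mul_assoc N, b1, one_mul, a1]
    · rw [ttmul, mul_assoc, ← mul_assoc (tw M), a2, one_mul, b2]
  have htw : ∀ M : Mat F, Mem M → Mem (tw M) := by
    intro M ⟨dM, fM, a1, a2⟩
    refine ⟨?_, ?_, ?_, ?_⟩
    · have := congrArg Matrix.det a1
      rw [Matrix.det_mul, dM, one_mul, Matrix.det_one] at this
      exact this
    · have e : tw M - 1 = tw (M - 1) := by rw [ttsub, ttone]
      rw [e]
      exact ftw 1 _ fM
    · rw [tttw]; exact a2
    · rw [tttw]; exact a1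
  refine ⟨hone, hmul, htw, ?_⟩
  intro a b n
  induction n with
  | zero => exact hone
  | succ n ih => exact hmul _ _ ih (hmul _ _ (hA _) (hB _))

end Pool.Agent.Helper69.GC
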