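import Pool.Agent.Helper69.GC.Defs

set_option autoImplicit false

namespace Pool.Agent.Helper69.GC

open Polynomial

theorem rel_coeff_comp {F : Type} [Field F] (p : F[X]) (s : ℕ) :
    (p.comp (-X)).coeff s = (-1) ^ s * p.coeff s := by
  have h : p.comp (-X) = p.comp (C (-1) * X) := by simp
  rw [h, comp_C_mul_X_coeff, mul_comm]

theorem st_REL (h1 : ST_GAM) (h2 : ST_WORD) (h3 : ST_DET) : ST_REL := by
  intro F _ hF k j a b hj hjk ha hb hL
  obtain ⟨-, -, -, hW⟩ := h1 F hF
  have hM := hW a b j
  obtain ⟨hd1, hd2⟩ := h3 F k _ hM hL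
  obtain ⟨-, hc⟩ := h2 F a b j hj
  set T := Matrix.trace (wd a b j) with hT
  have hc0 : T.coeff j ≠ 0 := by
    rw [hc]
    refine Finset.prod_ne_zero_iff.mpr ?_
    intro i hi
    have hi' := Finset.mem_range.mp hi
    exact mul_ne_zero (hb i hi') (div_ne_zero (pow_ne_zero 2 (ha i hi')) hF)
  have he : Even j := by
    by_contra hodd
    have hodd' : Odd j := Nat.not_even_iff_odd.mp hodd
    have h := hd1 j hjk
    rw [coeff_sub, rel_coeff_comp, hodd'.neg_one_pow] at h
    have h' : (2 : F) * T.coeff j = 0 := by linear_combination h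
    rcases mul_eq_zero.mp h' with h0 | h0
    · exact hF h0
    · exact hc0 h0
  have hgt : 2 * (k / 3) < j := by
    by_contra hle
    have h := hd2 j (not_lt.mp hle)
    rw [coeff_add, coeff_sub, rel_coeff_comp, he.neg_one_pow] at h
    have e3 : ((3 : F[X])).coeff j = 0 := by
      have : (3 : F[X]) = C 3 := (map_ofNat C 3).symm
      rw [this, coeff_C, if_neg (by omega)]
    have e2 : ((2 : F[X]) * T).coeff j = 2 * T.coeff j := by
      have : (2 : F[X]) = C 2 := (map_ofNat C 2).symm
      rw [this, coeff_C_mul]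
    rw [e3, e2] at h
    apply hc0
    linear_combination -h
  obtain ⟨m, hm⟩ := he
  refine ⟨⟨m, by omega⟩, by omega⟩

end Pool.Agent.Helper69.GC
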